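import Mathlib
import Pool.Agent.TH841.NF.ShaN

/-!
# A change of variables and the Tate-Shafarevich group
-/

set_option autoImplicit false

attribute [-instance] DivisionRing.toRatAlgebra

namespace Pool.Agent.L0h1.CM

open WeierstrassCurve
open Pool.Agent.TH841.SH.D (Pt act Gal Coch IsCoc IsCob LocTriv cob cob_add cob_neg cob_zero)
open Pool.Agent.TH841.NF.D (IsShaCoc shaCoc Sha)

/-- `x' = u² x + r`, `y' = u³ y + u² s x + t` changes the equation `W` to `W'` -/
structure Ch {F : Type} [Field F] (u r s t : F) (W W' : WeierstrassCurve F) : Prop where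
  hu : u ≠ 0
  h1 : u * W.a₁ = W'.a₁ + 2 * s
  h2 : u ^ 2 * W.a₂ = W'.a₂ - s * W'.a₁ + 3 * r - s ^ 2
  h3 : u ^ 3 * W.a₃ = W'.a₃ + r * W'.a₁ + 2 * t
  h4 : u ^ 4 * W.a₄ = W'.a₄ - s * W'.a₃ + 2 * r * W'.a₂ - (t + r * s) * W'.a₁ + 3 * r ^ 2 - 2 * s * t
  h6 : u ^ 6 * W.a₆ = W'.a₆ + r * W'.a₄ + r ^ 2 * W'.a₂ + r ^ 3 - t * W'.a₃ - t ^ 2 - r * t * W'.a₁

section tmap

variable {F : Type} [Field F] {u r s t : F} {W W' : WeierstrassCurve F} (S : Ch u r s t W W')

include S in
lemma eqn_iff (x y : F) : W'.toAffine.Equation (u ^ 2 * x + r) (u ^ 3 * y + u ^ 2 * s * x + t) ↔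
    W.toAffine.Equation x y := by
  have hu := S.hu
  rw [Affine.equation_iff', Affine.equation_iff']
  have e : (u ^ 3 * y + u ^ 2 * s * x + t) ^ 2 + W'.a₁ * (u ^ 2 * x + r) *
      (u ^ 3 * y + u ^ 2 * s * x + t) + W'.a₃ * (u ^ 3 * y + u ^ 2 * s * x + t) -
      ((u ^ 2 * x + r) ^ 3 + W'.a₂ * (u ^ 2 * x + r) ^ 2 + W'.a₄ * (u ^ 2 * x + r) + W'.a₆) =
      u ^ 6 * (y ^ 2 + W.a₁ * x * y + W.a₃ * y - (x ^ 3 + W.a₂ * x ^ 2 + W.a₄ * x + W.a₆)) := by
    linear_combination (-u ^ 5 * x * y) * S.h1 + (u ^ 4 * x ^ 2) * S.h2 + (-u ^ 3 * y) * S.h3 +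
      (u ^ 2 * x) * S.h4 + S.h6
  rw [e, mul_eq_zero, or_iff_right (pow_ne_zero 6 hu)]

include S in
lemma negY_eq (x y : F) : W'.toAffine.negY (u ^ 2 * x + r) (u ^ 3 * y + u ^ 2 * s * x + t) =
    u ^ 3 * W.toAffine.negY x y + u ^ 2 * s * x + t := by
  simp only [Affine.negY]
  linear_combination u ^ 2 * x * S.h1 + S.h3

include S in
lemma ns_iff (x y : F) :
    W'.toAffine.Nonsingular (u ^ 2 * x + r) (u ^ 3 * y + u ^ 2 * s * x + t) ↔
    W.toAffine.Nonsingular x y := by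
  have hu := S.hu
  rw [Affine.nonsingular_iff', Affine.nonsingular_iff', eqn_iff S]
  have e1 : W'.a₁ * (u ^ 3 * y + u ^ 2 * s * x + t) -
      (3 * (u ^ 2 * x + r) ^ 2 + 2 * W'.a₂ * (u ^ 2 * x + r) + W'.a₄) =
      u ^ 4 * (W.a₁ * y - (3 * x ^ 2 + 2 * W.a₂ * x + W.a₄)) -
        u * s * (u ^ 2 * (2 * y + W.a₁ * x + W.a₃)) := by
    linear_combination (-u ^ 3 * y + s * u ^ 2 * x) * S.h1 + (2 * u ^ 2 * x) * S.h2 +
      s * S.h3 + S.h4
  have e2 : 2 * (u ^ 3 * y + u ^ 2 * s * x + t) + W'.a₁ * (u ^ 2 * x + r) + W'.a₃ =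
      u ^ 3 * (2 * y + W.a₁ * x + W.a₃) := by
    linear_combination (-u ^ 2 * x) * S.h1 - S.h3
  rw [e1, e2]
  refine and_congr_right fun _ => ?_
  have h3 : u ^ 3 * (2 * y + W.a₁ * x + W.a₃) ≠ 0 ↔ 2 * y + W.a₁ * x + W.a₃ ≠ 0 := by
    rw [Ne, mul_eq_zero, or_iff_right (pow_ne_zero 3 hu)]
  rw [h3]
  by_cases h : 2 * y + W.a₁ * x + W.a₃ = 0
  · rw [h, mul_zero, mul_zero, sub_zero]
    simp only [ne_eq, not_true_eq_false, or_false]
    rw [mul_eq_zero, or_iff_right (pow_ne_zero 4 hu)]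
  · simp only [ne_eq, h, not_false_eq_true, or_true]

variable [DecidableEq F]

include S in
lemma slope_eq (x₁ x₂ y₁ y₂ : F) (h : ¬ (x₁ = x₂ ∧ y₁ = W.toAffine.negY x₂ y₂))
    (h1 : W.toAffine.Equation x₁ y₁) (h2 : W.toAffine.Equation x₂ y₂) :
    W'.toAffine.slope (u ^ 2 * x₁ + r) (u ^ 2 * x₂ + r) (u ^ 3 * y₁ + u ^ 2 * s * x₁ + t)
      (u ^ 3 * y₂ + u ^ 2 * s * x₂ + t) =
      u * W.toAffine.slope x₁ x₂ y₁ y₂ + s := by
  have hu := S.hu
  by_cases hx : x₁ = x₂
  · subst hx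
    have hy : y₁ ≠ W.toAffine.negY x₁ y₂ := fun h' => h ⟨rfl, h'⟩
    have hyy : y₁ = y₂ := by
      rcases Affine.Y_eq_of_X_eq h1 h2 rfl with h3 | h3
      · exact h3
      · exact absurd h3 hy
    subst hyy
    have hy' : u ^ 3 * y₁ + u ^ 2 * s * x₁ + t ≠
        W'.toAffine.negY (u ^ 2 * x₁ + r) (u ^ 3 * y₁ + u ^ 2 * s * x₁ + t) := by
      rw [negY_eq S]
      intro h'
      apply hy
      have : u ^ 3 * y₁ = u ^ 3 * W.toAffine.negY x₁ y₁ := by linear_combination h'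
      exact mul_left_cancel₀ (pow_ne_zero 3 hu) this
    rw [Affine.slope_of_Y_ne rfl hy, Affine.slope_of_Y_ne rfl hy', negY_eq S]
    have hd : y₁ - W.toAffine.negY x₁ y₁ ≠ 0 := sub_ne_zero.2 hy
    have e1 : u ^ 3 * y₁ + u ^ 2 * s * x₁ + t - (u ^ 3 * W.toAffine.negY x₁ y₁ + u ^ 2 * s * x₁ + t) =
        u ^ 3 * (y₁ - W.toAffine.negY x₁ y₁) := by ring
    rw [e1, div_eq_iff (mul_ne_zero (pow_ne_zero 3 hu) hd)]
    have e2 : (u * ((3 * x₁ ^ 2 + 2 * W.a₂ * x₁ + W.a₄ - W.a₁ * y₁) /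
        (y₁ - W.toAffine.negY x₁ y₁)) + s) * (u ^ 3 * (y₁ - W.toAffine.negY x₁ y₁)) =
        u ^ 4 * (3 * x₁ ^ 2 + 2 * W.a₂ * x₁ + W.a₄ - W.a₁ * y₁) +
          s * u ^ 3 * (y₁ - W.toAffine.negY x₁ y₁) := by
      field_simp
    rw [e2]
    simp only [Affine.negY]
    linear_combination (u ^ 3 * y₁ - s * u ^ 2 * x₁) * S.h1 - (2 * u ^ 2 * x₁) * S.h2 -
      s * S.h3 - S.h4
  · have hx' : u ^ 2 * x₁ + r ≠ u ^ 2 * x₂ + r := by
      intro h'
      apply hx
      have : u ^ 2 * x₁ = u ^ 2 * x₂ := by linear_combination h'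
      exact mul_left_cancel₀ (pow_ne_zero 2 hu) this
    rw [Affine.slope_of_X_ne hx, Affine.slope_of_X_ne hx']
    have hd : x₁ - x₂ ≠ 0 := sub_ne_zero.2 hx
    have e1 : u ^ 2 * x₁ + r - (u ^ 2 * x₂ + r) = u ^ 2 * (x₁ - x₂) := by ring
    rw [e1, div_eq_iff (mul_ne_zero (pow_ne_zero 2 hu) hd)]
    field_simp
    ring

include S in
omit [DecidableEq F] in
lemma addX_eq (x₁ x₂ l : F) :
    W'.toAffine.addX (u ^ 2 * x₁ + r) (u ^ 2 * x₂ + r) (u * l + s) =
      u ^ 2 * W.toAffine.addX x₁ x₂ l + r := by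
  simp only [Affine.addX]
  linear_combination (-u * l) * S.h1 + S.h2

include S in
omit [DecidableEq F] in
lemma addY_eq (x₁ x₂ y₁ l : F) :
    W'.toAffine.addY (u ^ 2 * x₁ + r) (u ^ 2 * x₂ + r) (u ^ 3 * y₁ + u ^ 2 * s * x₁ + t)
      (u * l + s) =
      u ^ 3 * W.toAffine.addY x₁ x₂ y₁ l + u ^ 2 * s * W.toAffine.addX x₁ x₂ l + t := by
  have h := addX_eq S x₁ x₂ l
  have h2 := negY_eq S (W.toAffine.addX x₁ x₂ l) (W.toAffine.negAddY x₁ x₂ y₁ l)
  unfold Affine.addY
  rw [← h2, h]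
  congr 1
  unfold Affine.negAddY
  rw [h]
  ring

/-- the map on points -/
def cF : W.toAffine.Point → W'.toAffine.Point
  | 0 => 0
  | .some x y h => .some (u ^ 2 * x + r) (u ^ 3 * y + u ^ 2 * s * x + t) ((ns_iff S x y).2 h)

omit [DecidableEq F] in
lemma cF_zero : cF S 0 = 0 := rfl

omit [DecidableEq F] in
lemma cF_some (x y : F) (h : W.toAffine.Nonsingular x y) :
    cF S (.some x y h) =
      .some (u ^ 2 * x + r) (u ^ 3 * y + u ^ 2 * s * x + t) ((ns_iff S x y).2 h) := rfl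

lemma cF_add (P Q : W.toAffine.Point) : cF S (P + Q) = cF S P + cF S Q := by
  have hu := S.hu
  match P, Q with
  | 0, Q => rw [zero_add, cF_zero, zero_add]
  | .some x y h, 0 => rw [add_zero, cF_zero, add_zero]
  | .some x₁ y₁ h₁, .some x₂ y₂ h₂ =>
    rw [cF_some, cF_some]
    by_cases hxy : x₁ = x₂ ∧ y₁ = W.toAffine.negY x₂ y₂
    · rw [Affine.Point.add_of_Y_eq hxy.1 hxy.2,
        Affine.Point.add_of_Y_eq (by rw [hxy.1]) (by rw [negY_eq S, hxy.1, hxy.2]),
        cF_zero]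
    · have hxy' : ¬ (u ^ 2 * x₁ + r = u ^ 2 * x₂ + r ∧
          u ^ 3 * y₁ + u ^ 2 * s * x₁ + t =
            W'.toAffine.negY (u ^ 2 * x₂ + r) (u ^ 3 * y₂ + u ^ 2 * s * x₂ + t)) := by
        rintro ⟨q1, q2⟩
        apply hxy
        have q3 : x₁ = x₂ := mul_left_cancel₀ (pow_ne_zero 2 hu) (by linear_combination q1)
        refine ⟨q3, ?_⟩
        rw [negY_eq S] at q2
        exact mul_left_cancel₀ (pow_ne_zero 3 hu) (by
          linear_combination q2 - u ^ 2 * s * q3)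
      rw [Affine.Point.add_some hxy, Affine.Point.add_some hxy', cF_some]
      rw [Affine.Point.some.injEq, slope_eq S _ _ _ _ hxy h₁.1 h₂.1, addX_eq S, addY_eq S]
      exact ⟨rfl, rfl⟩

end tmap

/-! ### over all the fields -/

/-- the base change -/
lemma Ch.base {u r s t : ℚ} {W W' : WeierstrassCurve ℚ} (S : Ch u r s t W W') (L : Type) [Field L]
    [Algebra ℚ L] : Ch (algebraMap ℚ L u) (algebraMap ℚ L r) (algebraMap ℚ L s) (algebraMap ℚ L t)
      (W.baseChange L) (W'.baseChange L) where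
  hu := (map_ne_zero _).2 S.hu
  h1 := by
    have := congrArg (algebraMap ℚ L) S.h1
    simp only [map_mul, map_add, map_ofNat] at this
    exact this
  h2 := by
    have := congrArg (algebraMap ℚ L) S.h2
    simp only [map_mul, map_add, map_sub, map_pow, map_ofNat] at this
    exact this
  h3 := by
    have := congrArg (algebraMap ℚ L) S.h3
    simp only [map_mul, map_add, map_pow, map_ofNat] at this
    exact this
  h4 := by
    have := congrArg (algebraMap ℚ L) S.h4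
    simp only [map_mul, map_add, map_sub, map_pow, map_ofNat] at this
    exact this
  h6 := by
    have := congrArg (algebraMap ℚ L) S.h6
    simp only [map_mul, map_add, map_sub, map_pow] at this
    exact this

section
variable {u r s t : ℚ} {W W' : WeierstrassCurve ℚ} (S : Ch u r s t W W')

/-- the map on the points over a field -/
noncomputable def cL (L : Type) [Field L] [Algebra ℚ L] : Pt W L →+ Pt W' L :=
  letI := Classical.decEq L
  { toFun := cF (S.base L)
    map_zero' := rfl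
    map_add' := fun P Q => cF_add (S.base L) P Q }

lemma cL_some {L : Type} [Field L] [Algebra ℚ L] {x y : L}
    (h : (W.baseChange L).toAffine.Nonsingular x y) :
    cL S L (Affine.Point.some x y h : Pt W L) =
      (Affine.Point.some (algebraMap ℚ L u ^ 2 * x + algebraMap ℚ L r)
        (algebraMap ℚ L u ^ 3 * y + algebraMap ℚ L u ^ 2 * algebraMap ℚ L s * x + algebraMap ℚ L t)
        ((ns_iff (S.base L) x y).2 h) : Pt W' L) := rfl

lemma pt_ext {V : WeierstrassCurve ℚ} {L : Type} [Field L] [Algebra ℚ L] {x y x' y' : L}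
    (h : (V.baseChange L).toAffine.Nonsingular x y)
    (h' : (V.baseChange L).toAffine.Nonsingular x' y') (hx : x = x') (hy : y = y') :
    (Affine.Point.some x y h : Pt V L) = Affine.Point.some x' y' h' := by
  subst hx
  subst hy
  rfl

/-- the map commutes with the homomorphisms of fields -/
lemma act_cL {F L : Type} [Field F] [Field L] [Algebra ℚ F] [Algebra ℚ L] (ι : F →ₐ[ℚ] L)
    (P : Pt W F) : act W' ι (cL S F P) = cL S L (act W ι P) := by
  match P with
  | 0 => rfl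
  | .some x y h =>
    refine pt_ext _ _ ?_ ?_
    · show ι (algebraMap ℚ F u ^ 2 * x + algebraMap ℚ F r) =
        algebraMap ℚ L u ^ 2 * ι x + algebraMap ℚ L r
      rw [map_add, map_mul, map_pow, ι.commutes, ι.commutes]
    · show ι (algebraMap ℚ F u ^ 3 * y + algebraMap ℚ F u ^ 2 * algebraMap ℚ F s * x +
          algebraMap ℚ F t) = algebraMap ℚ L u ^ 3 * ι y +
            algebraMap ℚ L u ^ 2 * algebraMap ℚ L s * ι x + algebraMap ℚ L t
      simp only [map_add, map_mul, map_pow, ι.commutes]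

/-- the inverse change -/
lemma Ch.inv (S : Ch u r s t W W') :
    Ch u⁻¹ (-(r / u ^ 2)) (-(s / u)) ((r * s - t) / u ^ 3) W' W := by
  have hu := S.hu
  have e1 := S.h1
  have e2 := S.h2
  have e3 := S.h3
  have e4 := S.h4
  have e6 := S.h6
  refine ⟨inv_ne_zero hu, ?_, ?_, ?_, ?_, ?_⟩
  · field_simp
    linear_combination -e1
  · field_simp
    linear_combination -e2 - s * e1
  · field_simp
    linear_combination -e3 + r * e1
  · field_simp
    linear_combination -e4 - s * e3 + 2 * r * e2 + (2 * r * s - t) * e1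
  · field_simp
    linear_combination -e6 + r * e4 - r ^ 2 * e2 + (r * s - t) * e3 - r * (r * s - t) * e1

/-! ### families of homomorphisms and the Tate-Shafarevich group -/

/-- a family of homomorphisms which commutes with the homomorphisms of fields -/
structure Hm (W W' : WeierstrassCurve ℚ) where
  f : ∀ (L : Type) [Field L] [Algebra ℚ L], Pt W L →+ Pt W' L
  nat : ∀ {F L : Type} [Field F] [Field L] [Algebra ℚ F] [Algebra ℚ L] (ι : F →ₐ[ℚ] L) (P : Pt W F),
    act W' ι (f F P) = f L (act W ι P)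

/-- the change of variables -/
noncomputable def chm (S : Ch u r s t W W') : Hm W W' := ⟨cL S, act_cL S⟩

end

section
variable {W W' : WeierstrassCurve ℚ} (φ : Hm W W')

/-- the image of a function -/
noncomputable def push (f : Coch W) : Coch W' := fun σ => φ.f _ (f σ)

lemma push_add (f g : Coch W) : push φ (f + g) = push φ f + push φ g := by
  funext σ
  exact map_add (φ.f _) (f σ) (g σ)

lemma push_coc {f : Coch W} (hf : IsCoc W f) : IsCoc W' (push φ f) := by
  refine ⟨hf.1.comp _, fun σ τ => ?_⟩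
  show φ.f _ (f (σ * τ)) = φ.f _ (f σ) + act W' σ.toAlgHom (φ.f _ (f τ))
  rw [φ.nat, hf.2, map_add]

lemma push_cob {f : Coch W} (hf : IsCob W f) : IsCob W' (push φ f) := by
  obtain ⟨P, hP⟩ := hf
  refine ⟨φ.f _ P, fun σ => ?_⟩
  show φ.f _ (f σ) = act W' σ.toAlgHom (φ.f _ P) - φ.f _ P
  rw [φ.nat, hP, map_sub]

lemma push_loc {K : Type} [Field K] [Algebra ℚ K] {f : Coch W} (hf : LocTriv W K f) :
    LocTriv W' K (push φ f) := by
  intro ι
  obtain ⟨P, hP⟩ := hf ι
  refine ⟨φ.f _ P, fun τ σ h => ?_⟩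
  show act W' ι (φ.f _ (f σ)) = act W' (τ.toAlgHom.restrictScalars ℚ) (φ.f _ P) - φ.f _ P
  rw [φ.nat, φ.nat, hP τ σ h, map_sub]

lemma push_sha {f : Coch W} (hf : IsShaCoc W f) : IsShaCoc W' (push φ f) :=
  ⟨push_coc φ hf.1, fun v => push_loc φ (hf.2.1 v), fun v => push_loc φ (hf.2.2 v)⟩

/-- the class of a cocycle -/
lemma cls_zero (f : shaCoc W) :
    (QuotientAddGroup.mk f : Sha W) = 0 ↔ IsCob W f.1 := by
  have h := QuotientAddGroup.eq_zero_iff (N := (cob W).addSubgroupOf (shaCoc W)) f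
  exact h.trans AddSubgroup.mem_addSubgroupOf

/-- **an isogeny of odd degree and the elements of order two** -/
theorem sha_tr (ψ : Hm W' W) {k : ℕ} (hk : Odd k)
    (h0 : ∀ P : Pt W' (AlgebraicClosure ℚ), φ.f _ (ψ.f _ P) = k • P)
    (h : ∀ x : Sha W, x + x = 0 → x = 0) (x : Sha W') (hx : x + x = 0) : x = 0 := by
  obtain ⟨f, rfl⟩ := QuotientAddGroup.mk_surjective x
  have h1 : IsCob W' (f + f : shaCoc W').1 := (cls_zero _).1 hx
  set g : shaCoc W := ⟨push ψ f.1, push_sha ψ f.2⟩ with hg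
  have h2 : (QuotientAddGroup.mk g : Sha W) = 0 := by
    apply h
    have h3 : IsCob W (g + g : shaCoc W).1 := by
      have e : (g + g : shaCoc W).1 = push ψ (f.1 + f.1) := by
        rw [push_add]
        rfl
      rw [e]
      exact push_cob ψ h1
    exact (cls_zero _).2 h3
  have h4 := push_cob φ ((cls_zero _).1 h2)
  have h5 : push φ g.1 = k • f.1 := by
    funext σ
    show φ.f _ (ψ.f _ (f.1 σ)) = k • f.1 σ
    exact h0 _
  rw [h5] at h4
  refine (cls_zero f).2 ?_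
  obtain ⟨j, hj⟩ := hk
  have e : f.1 = k • f.1 - j • (f.1 + f.1) := by
    rw [hj, add_smul, one_smul, mul_comm, mul_smul, two_smul]
    abel
  have m2 : f.1 + f.1 ∈ cob W' := h1
  have m3 : k • f.1 ∈ cob W' := h4
  have := (cob W').sub_mem m3 ((cob W').nsmul_mem m2 j)
  rw [← e] at this
  exact this

end

section
variable {u r s t : ℚ} {W W' : WeierstrassCurve ℚ}

lemma cL_inv (S : Ch u r s t W W') (L : Type) [Field L] [Algebra ℚ L] (P : Pt W' L) :
    cL S L (cL S.inv L P) = P := by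
  have hu : algebraMap ℚ L u ≠ 0 := (map_ne_zero _).2 S.hu
  match P with
  | 0 => rfl
  | .some x y h =>
    rw [cL_some, cL_some]
    refine pt_ext _ _ ?_ ?_
    · simp only [map_inv₀, map_neg, map_div₀, map_pow]
      field_simp
      ring
    · simp only [map_inv₀, map_neg, map_div₀, map_pow, map_sub, map_mul]
      field_simp
      ring

/-- **a change of variables and the elements of order two** -/
theorem sha_ch (S : Ch u r s t W W') (h : ∀ x : Sha W, x + x = 0 → x = 0) :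
    ∀ x : Sha W', x + x = 0 → x = 0 :=
  sha_tr (chm S) (chm S.inv) odd_one (fun P => by
    rw [one_smul]
    exact cL_inv S _ P) h

/-- the rational points -/
theorem fin_ch (S : Ch u r s t W W') (h : Finite W.toAffine.Point) : Finite W'.toAffine.Point := by
  refine Finite.of_injective (cF S.inv) ?_
  intro P Q hPQ
  have hu := S.hu
  match P, Q with
  | 0, 0 => rfl
  | 0, .some x y hxy => exact absurd hPQ (by rw [cF_zero, cF_some]; exact fun h' => by cases h')
  | .some x y hxy, 0 => exact absurd hPQ (by rw [cF_zero, cF_some]; exact fun h' => by cases h')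
  | .some x y hxy, .some x' y' hxy' =>
    rw [cF_some, cF_some, Affine.Point.some.injEq] at hPQ
    obtain ⟨h1, h2⟩ := hPQ
    have hx : x = x' := by
      have h3 : (u⁻¹ : ℚ) ^ 2 * x = u⁻¹ ^ 2 * x' := by linear_combination h1
      exact mul_left_cancel₀ (pow_ne_zero 2 (inv_ne_zero hu)) h3
    subst hx
    have hy : y = y' := by
      have h3 : (u⁻¹ : ℚ) ^ 3 * y = u⁻¹ ^ 3 * y' := by linear_combination h2
      exact mul_left_cancel₀ (pow_ne_zero 3 (inv_ne_zero hu)) h3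
    subst hy
    rfl

/-- finitely many rational points and no element of order two in the Tate-Shafarevich group -/
def TT2 (W : WeierstrassCurve ℚ) : Prop :=
  Finite W.toAffine.Point ∧ ∀ x : Sha W, x + x = 0 → x = 0

theorem tt_ch (S : Ch u r s t W W') : TT2 W ↔ TT2 W' :=
  ⟨fun h => ⟨fin_ch S h.1, sha_ch S h.2⟩, fun h => ⟨fin_ch S.inv h.1, sha_ch S.inv h.2⟩⟩

end

end Pool.Agent.L0h1.CM
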