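import Mathlib
import Pool.Agent.L0h1.CM.Chg
import Pool.Agent.L0h4.T6.Sha3
import Pool.Agent.L0h74.E3.Gd36

/-!
# The curves `y² = x³ + n³` of root number one: finitely many points and no element of order two
-/

set_option autoImplicit false

open scoped Classical

namespace Pool.Agent.L0h1.CM

open WeierstrassCurve
open Pool.Agent.TH841.NF.D (Sha)
open Pool.Agent.L0h4.T6 (J sha_three)
open Pool.Agent.L0h1.F3R (Em fin3)
open Pool.Agent.L0h74.E3 (RootPlus Cr Dn Dn_decomp Dn_sq Dn_three sgn_cases adm_half cr_odd cr_even)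
open Pool.Agent.L0h86.F1 (AdmM)
open Pool.Agent.L0h4.T4 (AdmC)

/-- the points of `y² = x³ + n³` -/
lemma em_of_pt {n : ℚ} (hn : n ≠ 0) (h : Finite (J (n ^ 3)).toAffine.Point) : (Em n).Finite := by
  have hns : ∀ x y : ℚ, (J (n ^ 3)).toAffine.Equation x y → (J (n ^ 3)).toAffine.Nonsingular x y := by
    intro x y hxy
    refine (Affine.equation_iff_nonsingular_of_Δ_ne_zero ?_).1 hxy
    have e : (J (n ^ 3)).toAffine.Δ = -432 * n ^ 6 := by
      simp only [J, WeierstrassCurve.Δ, WeierstrassCurve.b₈, WeierstrassCurve.b₆, WeierstrassCurve.b₄,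
        WeierstrassCurve.b₂]
      ring
    rw [e]
    exact mul_ne_zero (by norm_num) (pow_ne_zero _ hn)
  have heq : ∀ q : ℚ × ℚ, q ∈ Em n → (J (n ^ 3)).toAffine.Equation q.1 q.2 := by
    rintro ⟨x, y⟩ hq
    have hq' : y ^ 2 = x ^ 3 + n ^ 3 := hq
    rw [Affine.equation_iff]
    simp only [J]
    linear_combination hq'
  rw [← Set.finite_coe_iff]
  refine Finite.of_injective (β := (J (n ^ 3)).toAffine.Point)
    (fun q => Affine.Point.some _ _ (hns _ _ (heq q.1 q.2))) ?_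
  rintro ⟨⟨x, y⟩, hq⟩ ⟨⟨x', y'⟩, hq'⟩ h1
  simp only [Affine.Point.some.injEq] at h1
  obtain ⟨rfl, rfl⟩ := h1
  rfl

lemma pt_of_em {n : ℚ} (h : (Em n).Finite) : Finite (J (n ^ 3)).toAffine.Point := by
  have hf := h.to_subtype
  let g : (J (n ^ 3)).toAffine.Point → Option (Em n) := fun P =>
    match P with
    | .zero => none
    | .some x y hxy => some ⟨(x, y), by
        have h1 := (Affine.equation_iff _ _).1 hxy.1
        simp only [J] at h1
        show y ^ 2 = x ^ 3 + n ^ 3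
        linear_combination h1⟩
  refine Finite.of_injective g ?_
  intro P Q hPQ
  rcases P with _ | ⟨x, y, hxy⟩ <;> rcases Q with _ | ⟨x', y', hxy'⟩
  · rfl
  · simp [g] at hPQ
  · simp [g] at hPQ
  · simp only [g, Option.some.injEq, Subtype.mk.injEq, Prod.mk.injEq] at hPQ
    obtain ⟨rfl, rfl⟩ := hPQ
    rfl

/-- one direction of the isogeny of degree three -/
lemma tt3 {n : ℚ} (hn : n ≠ 0) (h : TT2 (J (n ^ 3))) : TT2 (J ((-3 * n) ^ 3)) := by
  refine ⟨pt_of_em (fin3 n (em_of_pt hn h.1)), fun x hx => ?_⟩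
  refine sha_three (a := n ^ 3) (b := (-3 * n) ^ 3) (r := 1) (s := 1 / 3)
    (pow_ne_zero _ (mul_ne_zero (by norm_num) hn)) (by norm_num) (by norm_num) (by ring) (by ring)
    (by norm_num) 1 (fun y hy => h.2 y ?_) x ?_
  · rw [pow_one, two_smul] at hy
    exact hy
  · rw [pow_one, two_smul]
    exact hx

/-- a scaling -/
lemma tt_sq {n t : ℚ} (ht : t ≠ 0) : TT2 (J (n ^ 3)) ↔ TT2 (J ((n * t ^ 2) ^ 3)) := by
  refine tt_ch (u := t) (r := 0) (s := 0) (t := 0) ⟨ht, ?_, ?_, ?_, ?_, ?_⟩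
  all_goals simp only [J]
  all_goals ring

/-- the isogeny of degree three -/
lemma tt3_iff {n : ℚ} (hn : n ≠ 0) : TT2 (J (n ^ 3)) ↔ TT2 (J ((-3 * n) ^ 3)) := by
  refine ⟨tt3 hn, fun h => ?_⟩
  have h1 := tt3 (mul_ne_zero (by norm_num : (-3 : ℚ) ≠ 0) hn) h
  have e : -3 * (-3 * n) = n * 3 ^ 2 := by ring
  rw [e] at h1
  exact (tt_sq (by norm_num)).2 h1

lemma tt_of_eq {V W : WeierstrassCurve ℚ} (h : V = W) : TT2 V ↔ TT2 W := by rw [h]

lemma tt_D {D : ℕ} (h : AdmM D) : TT2 (J ((D : ℚ) ^ 3)) ↔ (Pool.Agent.L0h86.F3.mM D).det ≠ 0 := by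
  rw [← Pool.Agent.L0h1.F3S.tt_M h]
  exact tt_of_eq rfl

lemma tt_ND {D : ℕ} (h : AdmM D) : TT2 (J ((-(D : ℚ)) ^ 3)) ↔ (Pool.Agent.L0h86.F3.mM D).det ≠ 0 := by
  rw [← Pool.Agent.L0h1.F3S.tt_N h]
  refine tt_of_eq ?_
  unfold J Pool.Agent.L0h4.T4.WN
  ext
  · rfl
  · rfl
  · rfl
  · rfl
  · push_cast
    ring

lemma tt_CD {m : ℕ} (h : AdmC m) :
    TT2 (J ((-(2 * m : ℚ)) ^ 3)) ↔ (Pool.Agent.L0h4.T5.mC (2 * m)).det ≠ 0 := by
  rw [← Pool.Agent.L0h1.F3R.tt_mC h]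
  refine tt_of_eq ?_
  unfold J Pool.Agent.L0h4.T4.WC
  ext
  · rfl
  · rfl
  · rfl
  · rfl
  · push_cast
    ring

/-- the numbers `m t²` -/
lemma tt_mul {P : Prop} {m : ℚ} (h : TT2 (J (m ^ 3)) ↔ P) {t : ℚ} (ht : t ≠ 0) {n : ℚ}
    (hn : n = m * t ^ 2) : TT2 (J (n ^ 3)) ↔ P := by
  rw [hn, ← tt_sq ht]
  exact h

lemma tt_mul3 {P : Prop} {m : ℚ} (hm : m ≠ 0) (h : TT2 (J (m ^ 3)) ↔ P) {t : ℚ} (ht : t ≠ 0) {n : ℚ}
    (hn : n = -3 * m * t ^ 2) : TT2 (J (n ^ 3)) ↔ P :=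
  tt_mul ((tt3_iff hm).symm.trans h) ht hn

/-- **the criterion for all the twists of `X_0(36)` of root number one** -/
theorem tt36 {n : ℤ} (h : RootPlus n) : TT2 (J ((n : ℚ) ^ 3)) ↔ Cr (Dn n) := by
  obtain ⟨hn0, hcl⟩ := h
  obtain ⟨t, ht, hdec⟩ := Dn_decomp hn0
  have ht' : (t : ℚ) ≠ 0 := by exact_mod_cast ht
  have hD0 : ((Dn n : ℕ) : ℚ) ≠ 0 := by exact_mod_cast (Dn_sq n).ne_zero
  rcases hcl with h4 | ⟨h2, hs⟩
  · have hA : AdmM (Dn n) := ⟨Dn_sq n, h4, Dn_three n⟩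
    rw [cr_odd (by omega)]
    rcases hdec with ⟨-, he⟩ | ⟨-, he⟩
    · rcases sgn_cases he with h5 | h5
      · refine tt_mul (tt_D hA) ht' ?_
        have h6 := congrArg (Int.cast : ℤ → ℚ) h5
        push_cast at h6
        linear_combination h6
      · refine tt_mul (tt_ND hA) ht' ?_
        have h6 := congrArg (Int.cast : ℤ → ℚ) h5
        push_cast at h6
        linear_combination h6
    · rcases sgn_cases he with h5 | h5
      · refine tt_mul3 (neg_ne_zero.2 hD0) (tt_ND hA) ht' ?_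
        have h6 := congrArg (Int.cast : ℤ → ℚ) h5
        push_cast at h6
        linear_combination h6
      · refine tt_mul3 hD0 (tt_D hA) ht' ?_
        have h6 := congrArg (Int.cast : ℤ → ℚ) h5
        push_cast at h6
        linear_combination h6
  · obtain ⟨m, hm, hA⟩ := adm_half (Dn_sq n) (Dn_three n) h2
    rw [cr_even h2]
    have hm0 : (-(2 * m : ℚ)) ≠ 0 := by
      have : (m : ℚ) ≠ 0 := by exact_mod_cast hA.sf.ne_zero
      exact neg_ne_zero.2 (mul_ne_zero (by norm_num) this)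
    have hDm : ((Dn n : ℕ) : ℚ) = 2 * m := by exact_mod_cast hm
    have key := tt_CD hA
    rw [← hm] at key
    rcases hs with ⟨hneg, hev⟩ | ⟨hpos, hod⟩
    · rcases hdec with ⟨-, he⟩ | ⟨ho, -⟩
      · refine tt_mul key ht' ?_
        rcases sgn_cases he with h5 | h5
        · exfalso
          have : (0 : ℤ) ≤ ((Dn n * t ^ 2 : ℕ) : ℤ) := Int.natCast_nonneg _
          omega
        · have h6 := congrArg (Int.cast : ℤ → ℚ) h5
          push_cast at h6
          rw [hDm] at h6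
          linear_combination h6
      · exact absurd hev (Nat.not_even_iff_odd.2 ho)
    · rcases hdec with ⟨hev, -⟩ | ⟨-, he⟩
      · exact absurd hev (Nat.not_even_iff_odd.2 hod)
      · refine tt_mul3 hm0 key ht' ?_
        rcases sgn_cases he with h5 | h5
        · have h6 := congrArg (Int.cast : ℤ → ℚ) h5
          push_cast at h6
          rw [hDm] at h6
          linear_combination h6
        · exfalso
          have : (0 : ℤ) ≤ ((3 * Dn n * t ^ 2 : ℕ) : ℤ) := Int.natCast_nonneg _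
          omega

end Pool.Agent.L0h1.CM
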