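import Mathlib
import Pool.Agent.L0h1.CM.Chg
import Pool.Agent.L0h74.E3.Gd49

/-!
# The curves `y² = x³ - 35 n² x - 98 n³` of root number one: finitely many points and no element of
# order two
-/

set_option autoImplicit false

open scoped Classical

namespace Pool.Agent.L0h1.CM

open WeierstrassCurve
open Pool.Agent.TH841.NF.D (Sha)
open Pool.Agent.L0h1.EV (TT TX)

/-- the curve `y² = x³ - 35 n² x - 98 n³` -/
def S7 (n : ℚ) : WeierstrassCurve ℚ := ⟨0, 0, 0, -35 * n ^ 2, -98 * n ^ 3⟩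

/-- the Tate-Shafarevich groups and the isogeny of degree seven -/
def S_SHA7 : Prop := ∀ n : ℚ, n ≠ 0 → (∀ x : Sha (S7 n), x + x = 0 → x = 0) →
  ∀ x : Sha (S7 (-7 * n)), x + x = 0 → x = 0

/-- the points of `y² = x³ - 35 n² x - 98 n³` -/
lemma em7_of_pt {n : ℚ} (hn : n ≠ 0) (h : Finite (S7 n).toAffine.Point) :
    (Pool.Agent.L0h98.T7.Em n).Finite := by
  have hns : ∀ x y : ℚ, (S7 n).toAffine.Equation x y → (S7 n).toAffine.Nonsingular x y := by
    intro x y hxy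
    refine (Affine.equation_iff_nonsingular_of_Δ_ne_zero ?_).1 hxy
    have e : (S7 n).toAffine.Δ = -16 * (87808 * n ^ 6) := by
      simp only [S7, WeierstrassCurve.Δ, WeierstrassCurve.b₈, WeierstrassCurve.b₆, WeierstrassCurve.b₄,
        WeierstrassCurve.b₂]
      ring
    rw [e]
    exact mul_ne_zero (by norm_num) (mul_ne_zero (by norm_num) (pow_ne_zero _ hn))
  have heq : ∀ q : ℚ × ℚ, q ∈ Pool.Agent.L0h98.T7.Em n → (S7 n).toAffine.Equation q.1 q.2 := by
    rintro ⟨x, y⟩ hq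
    have hq' : y ^ 2 = x ^ 3 - 35 * n ^ 2 * x - 98 * n ^ 3 := hq
    rw [Affine.equation_iff]
    simp only [S7]
    linear_combination hq'
  rw [← Set.finite_coe_iff]
  refine Finite.of_injective (β := (S7 n).toAffine.Point)
    (fun q => Affine.Point.some _ _ (hns _ _ (heq q.1 q.2))) ?_
  rintro ⟨⟨x, y⟩, hq⟩ ⟨⟨x', y'⟩, hq'⟩ h1
  simp only [Affine.Point.some.injEq] at h1
  obtain ⟨rfl, rfl⟩ := h1
  rfl

lemma pt_of_em7 {n : ℚ} (h : (Pool.Agent.L0h98.T7.Em n).Finite) : Finite (S7 n).toAffine.Point := by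
  have hf := h.to_subtype
  let g : (S7 n).toAffine.Point → Option (Pool.Agent.L0h98.T7.Em n) := fun P =>
    match P with
    | .zero => none
    | .some x y hxy => some ⟨(x, y), by
        have h1 := (Affine.equation_iff _ _).1 hxy.1
        simp only [S7] at h1
        show y ^ 2 = x ^ 3 - 35 * n ^ 2 * x - 98 * n ^ 3
        linear_combination h1⟩
  refine Finite.of_injective g ?_
  intro P Q hPQ
  rcases P with _ | ⟨x, y, hxy⟩ <;> rcases Q with _ | ⟨x', y', hxy'⟩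
  · rfl
  · simp [g] at hPQ
  · simp [g] at hPQ
  · simp only [g, Option.some.injEq, Subtype.mk.injEq, Prod.mk.injEq] at hPQ
    obtain ⟨rfl, rfl⟩ := hPQ
    rfl

/-- one direction of the isogeny of degree seven -/
lemma tt7 (hS : S_SHA7) {n : ℚ} (hn : n ≠ 0) (h : TT2 (S7 n)) : TT2 (S7 (-7 * n)) :=
  ⟨pt_of_em7 (Pool.Agent.L0h98.T7.fin7 n (em7_of_pt hn h.1)), hS n hn h.2⟩

/-- a scaling -/
lemma tt_sq7 {n t : ℚ} (ht : t ≠ 0) : TT2 (S7 n) ↔ TT2 (S7 (n * t ^ 2)) := by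
  refine tt_ch (u := t) (r := 0) (s := 0) (t := 0) ⟨ht, ?_, ?_, ?_, ?_, ?_⟩
  all_goals simp only [S7]
  all_goals ring

/-- the isogeny of degree seven -/
lemma tt7_iff (hS : S_SHA7) {n : ℚ} (hn : n ≠ 0) : TT2 (S7 n) ↔ TT2 (S7 (-7 * n)) := by
  refine ⟨tt7 hS hn, fun h => ?_⟩
  have h1 := tt7 hS (mul_ne_zero (by norm_num : (-7 : ℚ) ≠ 0) hn) h
  have e : -7 * (-7 * n) = n * 7 ^ 2 := by ring
  rw [e] at h1
  exact (tt_sq7 (by norm_num)).2 h1

/-- the minimal equation and the short equation -/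
lemma tt_TX (D : ℕ) : TT D ↔ TT2 (S7 D) := by
  have e0 : TT D ↔ TT2 (TX D) := Iff.rfl
  rw [e0]
  by_cases h : D % 4 = 1
  · refine tt_ch (u := 2) (r := -D) (s := 1) (t := 0) ⟨two_ne_zero, ?_, ?_, ?_, ?_, ?_⟩
    all_goals unfold TX
    all_goals rw [if_pos h]
    all_goals simp only [S7]
    all_goals ring
  · have e : TX D = S7 D := by
      unfold TX
      rw [if_neg h]
      rfl
    rw [e]

/-- **the criterion for all the twists of `X_0(49)` of root number one** -/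
theorem tt49 (hS : S_SHA7) {n : ℤ} (h : Pool.Agent.L0h74.AP.RootPlus n) :
    TT2 (S7 n) ↔ TT (Pool.Agent.L0h74.AP.Dn n) := by
  have hn0 : n ≠ 0 := by
    rcases h with h | h
    · exact h.1.ne'
    · exact h.1.ne
  obtain ⟨t, ht, hdec⟩ := Pool.Agent.L0h74.AP.Dn_decomp hn0
  have ht' : (t : ℚ) ≠ 0 := by exact_mod_cast ht
  have hsf := Pool.Agent.L0h74.AP.Dn_sq n
  have hD0 : ((Pool.Agent.L0h74.AP.Dn n : ℕ) : ℚ) ≠ 0 := by exact_mod_cast hsf.ne_zero
  rw [tt_TX]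
  rcases h with ⟨hpos, hev⟩ | ⟨hneg, hod⟩
  · rcases hdec with ⟨-, he⟩ | ⟨ho, -⟩
    · have h5 : (n.natAbs : ℤ) = n := Int.natAbs_of_nonneg hpos.le
      rw [he] at h5
      have h6 := congrArg (Int.cast : ℤ → ℚ) h5
      push_cast at h6
      rw [← h6, ← tt_sq7 ht']
    · exact absurd hev (Nat.not_even_iff_odd.2 ho)
  · rcases hdec with ⟨he, -⟩ | ⟨-, he⟩
    · exact absurd he (Nat.not_even_iff_odd.2 hod)
    · have h5 : (n.natAbs : ℤ) = -n := by omega
      rw [he] at h5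
      have h6 := congrArg (Int.cast : ℤ → ℚ) h5
      push_cast at h6
      have h7 : (n : ℚ) = -7 * (Pool.Agent.L0h74.AP.Dn n : ℚ) * (t : ℚ) ^ 2 := by
        linear_combination h6
      rw [h7, ← tt_sq7 ht', ← tt7_iff hS hD0]

end Pool.Agent.L0h1.CM
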